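import Pool.Agent.R929.OC.Four

/-!
# Orlov's conjecture for fourfolds with Chow motives of abelian type

Let `X`, `Y` be smooth projective complex fourfolds with `D(X) ≃ D(Y)`.  The data:

* `Twisted 4` (starting library): the cohomology of a compact Kähler fourfold with complex
  coefficients, its Hodge decomposition, the form `∫ x ∪ conj y`, the Lefschetz operator with the
  hard Lefschetz theorem and the Hodge–Riemann relations, and the product with `c₁`.
* `Corr X Y`: the algebra `C = CH^*(Z × Z) ⊗ ℚ` of correspondences of `Z = X ⊔ Y` (with the grading by
  degree, the diagonals of `X` and `Y`) and its action on the cohomology of `Z`.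
* `Equivalence D`: the Mukai vectors of the kernels of the equivalence and of its inverse, which are
  mixed correspondences inverse to each other; the induced map on the cohomology preserves the
  Mukai pairings.
* `MotivesIsomorphic D`: there are `a ∈ CH^4(X × Y) ⊗ ℚ` and `b ∈ CH^4(Y × X) ⊗ ℚ` which are inverse
  to each other: the Chow motives of `X` and `Y` are isomorphic.

The hypotheses:

* `Kunneth D`: the Künneth projectors are algebraic; `Nilpotence D`: correspondences of degree zero
  which act trivially on the cohomology are nilpotent (finite dimensional motives); `Semisimple D`: the
  algebra of correspondences modulo homological equivalence is semisimple (homological equals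
  numerical equivalence).  All three are theorems if the Chow motives of `X` and `Y` are of abelian
  type, that is direct summands of motives of products of curves (Lieberman, Kimura, Jannsen); `X` and
  `Y` then satisfy these conditions together, and it is enough to assume it for one of them, since the
  motive of `Y` is a summand of a sum of Tate twists of the motive of `X`.
* `IsoOn D 0`: true, by the classes of `pt × Y` and `pt × X`.
* `IsoOn D 1`: true, by the isogeny of the Picard varieties (Popa–Schnell).

The theorem: the Chow motives of `X` and `Y` are isomorphic.

The known argument (semisimplicity and cancellation) gives only the sum of `h²` and `h⁴`.  The new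
point: for each central idempotent `e` of the algebra of correspondences modulo homological
equivalence the form is nondegenerate on `e H^*(X)` and satisfies the Hodge–Riemann relations
(`R929.OC.rad_zero`), so that the signature of the Mukai form on `e H^*` (as in
`MP_b4fe5e_ag.HodgeInertia`) determines the dimensions of all `e H^{p,q}`; this determines the
multiplicities of all simple motives in `h^k(X)`.
-/

namespace Pool.Agent.Results.MP_5c0b30_ag.FourfoldsOfAbelianType

open Pool.Agent.TH125.Tw Pool.Agent.R929.OC

/-- **Theorem.** -/
theorem result (X Y : Twisted 4) (D : Corr X Y) (hK : Kunneth D) (hN : Nilpotence D)
    (hS : Semisimple D) (h0 : IsoOn D 0) (h1 : IsoOn D 1) (Ψ : Equivalence D) :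
    MotivesIsomorphic D :=
  fourfolds hK hN hS Ψ h0 h1

end Pool.Agent.Results.MP_5c0b30_ag.FourfoldsOfAbelianType
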