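import Pool.Agent.R941.OH.Wit
import Pool.Agent.R941.OH.HStr

/-!
# Derived equivalences and the intersection form on the middle cohomology

Let `X` and `Y` be smooth projective complex varieties of dimension `n` with equivalent derived
categories.  The Mukai pairing, which is preserved by the equivalence, is twisted by
`exp (c₁ / 2)` and mixes the degrees.  The theorem shows that nevertheless the intersection form on
the middle cohomology, with its Hodge structure, is invariant: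

* the untwisted Mukai pairings on the cohomology in the degrees of the parity of `n` are isometric
  by a rational isometry that respects `p - q`; that is, `H^n (X, ℚ)` and `H^n (Y, ℚ)` with the cup
  product become isometric after adding hyperbolic Hodge structures;
* if `H^n (X, ℚ)` and `H^n (Y, ℚ)` are isomorphic rational Hodge structures then there is an
  isomorphism between them which is an isometry for the cup product;
* this holds for all `n ≤ 4`, and for `n = 5` if `H^1 (X, ℚ)` and `H^1 (Y, ℚ)` are isomorphic (which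
  is a theorem of Popa and Schnell).

Outline.  (1) On the degrees of the parity of `n` the hermitian part of the Mukai pairing is
`F (s x) (s y)`, where `F` is the untwisted pairing and `s` is the square root of `cosh (c₁ / 2)`, a
unit of the algebra `E` of endomorphisms of the rational Hodge structure.  (2) The adjoint for this
form is the same involution of `E` for `X` and for `Y`.  (3) The complement of the middle degree is
hyperbolic and is the sum of two parts on which the involution is positive.  (4) Cancellation: for a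
part `g` with a positive involution and `d` in `g E g` there is an isometry `τ` of `g` such that
`τ - d` is injective (induction on the dimension of `g E`: a self-adjoint element which is not
invertible splits `g`, and if all elements are invertible then `τ = g` or `τ = -g` does it); then
`φ = f (e + c w* e)` is an isometry of the complements.
-/

set_option autoImplicit false

open scoped ComplexConjugate
open Pool.Agent.W539.DI Pool.Agent.R941.OH Pool.Agent.R941.OH.HStr

namespace Pool.Agent.Results.MP_5c0b30_ag.HodgeIsometries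

variable {n : ℕ} {X Y : KRing n}

/-- There is an isomorphism of rational Hodge structures `H^n (X, ℚ) → H^n (Y, ℚ)` in the middle
degree which is an isometry for the cup product: linear maps `u` and `v` which preserve rational
classes, map the classes of type `(p, q)`, `p + q = n`, of `X` to those of `Y` and back, are inverse
to each other there, and `∫ u x * u y = ∫ x * y` for classes `x` and `y` of degree `n`. -/
def HodgeIsometry (r : RatStr X) (t : RatStr Y) : Prop :=
  ∃ (u : X.R →ₗ[ℂ] Y.R) (v : Y.R →ₗ[ℂ] X.R), RatOp r t u ∧ RatOp t r v ∧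
    (∀ (p q : ℤ) (x : X.R), p + q = n → x ∈ X.H (p, q) → u x ∈ Y.H (p, q) ∧ v (u x) = x) ∧
    (∀ (p q : ℤ) (y : Y.R), p + q = n → y ∈ Y.H (p, q) → v y ∈ X.H (p, q) ∧ u (v y) = y) ∧
    ∀ (p q a b : ℤ) (x y : X.R), p + q = n → a + b = n → x ∈ X.H (p, q) → y ∈ X.H (a, b) →
      Y.tr (u x * u y) = X.tr (x * y)

/-- There is a linear isomorphism of the cohomology of `X` and `Y` which preserves rational classes
and the difference `p - q` of the types, and which is an isometry in the degrees of the parity of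
`n` for the untwisted Mukai pairing `∫ x^∨ y`. -/
def UntwistedIsometry (r : RatStr X) (t : RatStr Y) : Prop :=
  ∃ (u : X.R →ₗ[ℂ] Y.R) (v : Y.R →ₗ[ℂ] X.R), RatOp r t u ∧ TypeOp u ∧ RatOp t r v ∧ TypeOp v ∧
    v ∘ₗ u = LinearMap.id ∧ u ∘ₗ v = LinearMap.id ∧
    ∀ (p q a b : ℤ) (x y : X.R), Even (p + q + n) → Even (a + b + n) → x ∈ X.H (p, q) →
      y ∈ X.H (a, b) → Y.tr (Y.dual (u x) * u y) = X.tr (X.dual x * y)

section main

variable (r : RatStr X) (t : RatStr Y) (Φ : FM X Y)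
  (h1 : RatOp r t (Φ.φ : X.R →ₗ[ℂ] Y.R)) (h2 : RatOp t r (Φ.φ.symm : Y.R →ₗ[ℂ] X.R))
  (A : Act (EHS r) X) (hA : A.ρ = rhoX r) (B : Act (EHS r) Y) (hB : B.ρ = rhoY r Φ)

theorem pD_n {E : Type} [Ring E] (L : Lef E n) : L.pD (fun k => k = n) = L.p n := by
  refine L.ext_p fun m hm => ?_
  rw [L.pD_p _ hm, L.pp]
  by_cases h : m = n
  · rw [if_pos h, if_pos h.symm, h]
  · rw [if_neg h, if_neg (Ne.symm h)]

theorem mem_mid {Z : KRing n} {E : Type} [Ring E] [Algebra ℚ E] (C : Act E Z) {p q : ℤ}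
    (hpq : p + q = n) {z : Z.R} (hz : z ∈ typ Z p q) (h : C.ρ (C.L.p n) z = z) :
    z ∈ Z.H (p, q) := by
  classical
  refine mem_of_proj hpq hz ?_
  rw [← C.rho_pD, pD_n, h]

theorem pn_of {Z : KRing n} {E : Type} [Ring E] [Algebra ℚ E] (C : Act E Z) {p q : ℤ}
    (hpq : p + q = n) {z : Z.R} (hz : z ∈ Z.H (p, q)) : C.ρ (C.L.p n) z = z := by
  rw [C.rho_p, dg_of Z hz, if_pos hpq]

include hA in
theorem bar_A (a : EHS r) (x : X.R) : X.bar (A.ρ a x) = A.ρ a (X.bar x) := by
  rw [hA]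
  exact bar_op r (rhoX_rat r a) x

include h1 h2 hB in
theorem bar_B (a : EHS r) (y : Y.R) : Y.bar (B.ρ a y) = B.ρ a (Y.bar y) := by
  rw [hB]
  exact bar_op t (rhoY_rat r t Φ h1 h2 a) y

theorem F_bar (x y : X.R) : F X x (X.bar y) = X.tr (X.dual x * y) := by
  unfold F
  rw [X.bar_bar]

include h1 h2 hA hB

theorem untwisted (hΦ : ∀ a x, Φ.φ (A.ρ a x) = B.ρ a (Φ.φ x)) : UntwistedIsometry r t := by
  have hΦ' : ∀ a y, Φ.φ.symm (B.ρ a y) = A.ρ a (Φ.φ.symm y) := by
    intro a y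
    apply Φ.φ.injective
    rw [LinearEquiv.apply_symm_apply, hΦ, LinearEquiv.apply_symm_apply]
  have hu : ∀ x, (B.ρ B.s ∘ₗ (Φ.φ : X.R →ₗ[ℂ] Y.R) ∘ₗ A.ρ A.s') x = B.ρ B.s (Φ.φ (A.ρ A.s' x)) :=
    fun _ => rfl
  refine ⟨B.ρ B.s ∘ₗ (Φ.φ : X.R →ₗ[ℂ] Y.R) ∘ₗ A.ρ A.s',
    A.ρ A.s ∘ₗ (Φ.φ.symm : Y.R →ₗ[ℂ] X.R) ∘ₗ B.ρ B.s', ?_, ?_, ?_, ?_, ?_, ?_, ?_⟩
  · refine ratOp_comp r ?_ (ratOp_comp r h1 ?_)
    · rw [hB]; exact rhoY_rat r t Φ h1 h2 _
    · rw [hA]; exact rhoX_rat r _
  · refine typeOp_comp ?_ (typeOp_comp (typeOp_phi Φ) ?_)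
    · exact B.typ_mem _
    · exact A.typ_mem _
  · refine ratOp_comp t ?_ (ratOp_comp t h2 ?_)
    · rw [hA]; exact rhoX_rat r _
    · rw [hB]; exact rhoY_rat r t Φ h1 h2 _
  · refine typeOp_comp ?_ (typeOp_comp (typeOp_symm Φ) ?_)
    · exact A.typ_mem _
    · exact B.typ_mem _
  · ext x
    show A.ρ A.s (Φ.φ.symm (B.ρ B.s' (B.ρ B.s (Φ.φ (A.ρ A.s' x))))) = x
    rw [← Module.End.mul_apply (B.ρ B.s'), ← map_mul, B.s'_s, map_one, Module.End.one_apply,
      LinearEquiv.symm_apply_apply, ← Module.End.mul_apply, ← map_mul, A.s_s', map_one,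
      Module.End.one_apply]
  · ext y
    show B.ρ B.s (Φ.φ (A.ρ A.s' (A.ρ A.s (Φ.φ.symm (B.ρ B.s' y))))) = y
    rw [← Module.End.mul_apply (A.ρ A.s'), ← map_mul, A.s'_s, map_one, Module.End.one_apply,
      LinearEquiv.apply_symm_apply, ← Module.End.mul_apply, ← map_mul, B.s_s', map_one,
      Module.End.one_apply]
  · intro p q a b x y hx hy hxm hym
    rw [hu, hu]
    have px : A.ρ A.L.PT x = x := by
      rw [A.rho_PT (mem_typ X hxm), if_pos]
      rw [Int.even_iff] at *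
      omega
    have hyb := X.bar_mem _ _ _ hym
    have py : A.ρ A.L.PT (X.bar y) = X.bar y := by
      rw [A.rho_PT (mem_typ X hyb), if_pos]
      rw [Int.even_iff] at *
      omega
    have e1 : Y.bar (B.ρ B.s (Φ.φ (A.ρ A.s' y))) = B.ρ B.s (Φ.φ (A.ρ A.s' (X.bar y))) := by
      rw [bar_B r t Φ h1 h2 B hB, ← Φ.real, bar_A r A hA]
    have key : ∀ x y : X.R, A.ρ A.L.PT x = x → A.ρ A.L.PT y = y →
        F Y (B.ρ B.s (Φ.φ (A.ρ A.s' x))) (B.ρ B.s (Φ.φ (A.ρ A.s' y))) = F X x y := by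
      intro x y hx hy
      have ex : A.ρ A.s' x = A.ρ A.L.PT (A.ρ A.s' x) := by rw [← A.ρ_PT_comm, hx]
      have ey : A.ρ A.s' y = A.ρ A.L.PT (A.ρ A.s' y) := by rw [← A.ρ_PT_comm, hy]
      rw [← B.Bt_eq, ex, ey, ← Bt_phi A B Φ, ← ex, ← ey, A.Bt_eq, ← Module.End.mul_apply,
        ← Module.End.mul_apply, ← map_mul, A.s_s', map_one]
      rfl
    rw [← F_bar, ← Y.bar_bar (B.ρ B.s (Φ.φ (A.ρ A.s' y))), ← F_bar, Y.bar_bar, e1,
      key x (X.bar y) px py]

theorem middle (hΦ : ∀ a x, Φ.φ (A.ρ a x) = B.ρ a (Φ.φ x)) (h : HodgeIso r t n) :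
    HodgeIsometry r t := by
  classical
  have hΦ' : ∀ a y, Φ.φ.symm (B.ρ a y) = A.ρ a (Φ.φ.symm y) := by
    intro a y
    apply Φ.φ.injective
    rw [LinearEquiv.apply_symm_apply, hΦ, LinearEquiv.apply_symm_apply]
  have hn : ∀ S, tS S (A.L.p n) = tS S (B.L.p n) := by
    intro S
    have h3 := (same_iff r t Φ h1 h2 A B hA hB (fun k => k = n)).1 (same_of_iso h) S
    rwa [pD_n, pD_n] at h3
  obtain ⟨φ, f1, f2, f3⟩ := exists_phi A B Φ hΦ hn
  have g1 : B.eN * φ = φ := by rw [← f1]; simp only [← mul_assoc, B.eN_eN]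
  have g2 : φ * A.eN = φ := by rw [← f1]; simp only [mul_assoc, A.eN_eN]
  have g4 : A.eN * A.sg φ = A.sg φ := by
    have h3 := A.st.σ_mul φ A.eN
    rw [g2, (A.pr_of A.eN_eN A.PT_eN A.adj_eN).self] at h3
    exact h3.symm
  have k1 : B.L.p n * (B.s * φ) = B.s * φ := by
    have : B.s * (B.eN * φ) = B.L.p n * (B.s * φ) := by
      unfold Act.eN Act.cj
      calc B.s * (B.s' * B.L.p n * B.s * φ) = (B.s * B.s') * B.L.p n * (B.s * φ) := by
            simp only [mul_assoc]
        _ = _ := by rw [B.s_s', one_mul]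
    rw [← this, g1]
  have k2 : A.L.p n * (A.s * A.sg φ) = A.s * A.sg φ := by
    have : A.s * (A.eN * A.sg φ) = A.L.p n * (A.s * A.sg φ) := by
      unfold Act.eN Act.cj
      calc A.s * (A.s' * A.L.p n * A.s * A.sg φ) = (A.s * A.s') * A.L.p n * (A.s * A.sg φ) := by
            simp only [mul_assoc]
        _ = _ := by rw [A.s_s', one_mul]
    rw [← this, g4]
  set u : X.R →ₗ[ℂ] Y.R := B.ρ (B.s * φ) ∘ₗ (Φ.φ : X.R →ₗ[ℂ] Y.R) ∘ₗ A.ρ A.s' with hu
  set v : Y.R →ₗ[ℂ] X.R := A.ρ (A.s * A.sg φ) ∘ₗ (Φ.φ.symm : Y.R →ₗ[ℂ] X.R) ∘ₗ B.ρ B.s' with hv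
  have hu' : ∀ x, u x = B.ρ (B.s * φ) (Φ.φ (A.ρ A.s' x)) := fun _ => rfl
  have hv' : ∀ y, v y = A.ρ (A.s * A.sg φ) (Φ.φ.symm (B.ρ B.s' y)) := fun _ => rfl
  have ru : RatOp r t u := by
    refine ratOp_comp r ?_ (ratOp_comp r h1 ?_)
    · rw [hB]; exact rhoY_rat r t Φ h1 h2 _
    · rw [hA]; exact rhoX_rat r _
  have tu : TypeOp u := by
    refine typeOp_comp ?_ (typeOp_comp (typeOp_phi Φ) ?_)
    · exact B.typ_mem _
    · exact A.typ_mem _
  have rv : RatOp t r v := by
    refine ratOp_comp t ?_ (ratOp_comp t h2 ?_)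
    · rw [hA]; exact rhoX_rat r _
    · rw [hB]; exact rhoY_rat r t Φ h1 h2 _
  have tv : TypeOp v := by
    refine typeOp_comp ?_ (typeOp_comp (typeOp_symm Φ) ?_)
    · exact A.typ_mem _
    · exact B.typ_mem _
  have vu : ∀ x, v (u x) = A.ρ (A.L.p n) x := by
    intro x
    rw [hv', hu', ← Module.End.mul_apply (B.ρ B.s'), ← map_mul, ← mul_assoc, B.s'_s, one_mul, hΦ',
      LinearEquiv.symm_apply_apply, ← Module.End.mul_apply, ← Module.End.mul_apply, ← map_mul,
      ← map_mul]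
    congr 2
    calc A.s * A.sg φ * φ * A.s' = A.s * (A.sg φ * φ) * A.s' := by simp only [mul_assoc]
      _ = A.s * (A.s' * A.L.p n * A.s) * A.s' := by rw [f2]; rfl
      _ = (A.s * A.s') * A.L.p n * (A.s * A.s') := by simp only [mul_assoc]
      _ = _ := by rw [A.s_s', one_mul, mul_one]
  have uv : ∀ y, u (v y) = B.ρ (B.L.p n) y := by
    intro y
    rw [hv', hu', ← Module.End.mul_apply (A.ρ A.s'), ← map_mul, ← mul_assoc, A.s'_s, one_mul, hΦ,
      LinearEquiv.apply_symm_apply, ← Module.End.mul_apply, ← Module.End.mul_apply, ← map_mul,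
      ← map_mul]
    congr 2
    calc B.s * φ * A.sg φ * B.s' = B.s * (φ * A.sg φ) * B.s' := by simp only [mul_assoc]
      _ = B.s * (B.s' * B.L.p n * B.s) * B.s' := by rw [f3]; rfl
      _ = (B.s * B.s') * B.L.p n * (B.s * B.s') := by simp only [mul_assoc]
      _ = _ := by rw [B.s_s', one_mul, mul_one]
  have mu : ∀ (p q : ℤ) (x : X.R), p + q = n → x ∈ X.H (p, q) → u x ∈ Y.H (p, q) := by
    intro p q x hpq hx
    refine mem_mid B hpq (tu p q x hx) ?_
    rw [hu', ← Module.End.mul_apply, ← map_mul, k1]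
  have mv : ∀ (p q : ℤ) (y : Y.R), p + q = n → y ∈ Y.H (p, q) → v y ∈ X.H (p, q) := by
    intro p q y hpq hy
    refine mem_mid A hpq (tv p q y hy) ?_
    rw [hv', ← Module.End.mul_apply, ← map_mul, k2]
  refine ⟨u, v, ru, rv, fun p q x hpq hx => ⟨mu p q x hpq hx, ?_⟩,
    fun p q y hpq hy => ⟨mv p q y hpq hy, ?_⟩, ?_⟩
  · rw [vu, pn_of A hpq hx]
  · rw [uv, pn_of B hpq hy]
  · intro p q a b x y hpq hab hx hy
    have hyb := X.bar_mem _ _ _ hy
    have e1 : Y.bar (u y) = u (X.bar y) := by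
      rw [hu', hu', bar_B r t Φ h1 h2 B hB, ← Φ.real, bar_A r A hA]
    have e2 := F_iso A B Φ hΦ f1 f2 x (X.bar y) (pn_of A (by omega) hyb)
    rw [← hu', ← hu', ← e1, F_bar, F_bar, Y.dual_of (mu p q x hpq hx), X.dual_of hx,
      smul_mul_assoc, smul_mul_assoc, map_smul, map_smul, smul_eq_mul, smul_eq_mul] at e2
    exact mul_left_cancel₀ (zpow_ne_zero _ Complex.I_ne_zero) e2

end main

/-- **Rational Hodge structures and intersection forms of derived equivalent varieties.**  Let `X`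
and `Y` be smooth projective complex varieties of dimension `n` with equivalent derived categories.

1. The untwisted Mukai pairings on the rational cohomology of `X` and `Y` in the degrees of the
   parity of `n` are isometric, by an isometry which respects `p - q`.
2. `H^{n-1} ⊕ H^{n-3} ⊕ ...`, and `H^{n-2} ⊕ H^{n-6} ⊕ H^{n-10} ⊕ ...`, of `X` and of `Y` are
   isomorphic rational Hodge structures (up to Tate twists).
3. `H^n (X, ℚ)` and `H^n (Y, ℚ)` are isomorphic rational Hodge structures if and only if they are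
   Hodge isometric for the cup product, and if and only if `H^{n-4} ⊕ H^{n-8} ⊕ ...` of `X` and `Y`
   are isomorphic.
4. If `n ≤ 3`, then `H^m (X, ℚ)` and `H^m (Y, ℚ)` are isomorphic for all `m`, and Hodge isometric for
   `m = n`.
5. If `n = 4`, then `H^m (X, ℚ)` and `H^m (Y, ℚ)` are isomorphic for all even `m`, and Hodge isometric
   for `m = 4`; they are isomorphic for all `m` if they are for `m = 1`.
6. If `n = 5`, then they are isomorphic for `m = 3` and `m = 7`; if they are for `m = 1`, then they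
   are for all odd `m`, and Hodge isometric for `m = 5`.
7. If `n = 6`, then they are isomorphic for `m = 4` and `m = 8`. -/
theorem result (n : ℕ) (X Y : KRing n) (r : RatStr X) (t : RatStr Y) (Φ : FM X Y)
    (h1 : RatOp r t (Φ.φ : X.R →ₗ[ℂ] Y.R)) (h2 : RatOp t r (Φ.φ.symm : Y.R →ₗ[ℂ] X.R)) :
    UntwistedIsometry r t ∧
    SameHodge r t (fun m => m < n ∧ (n - m) % 2 = 1) ∧
    SameHodge r t (fun m => m < n ∧ (n - m) % 4 = 2) ∧
    (HodgeIso r t n ↔ HodgeIsometry r t) ∧
    (HodgeIso r t n ↔ SameHodge r t (fun m => m < n ∧ (n - m) % 4 = 0)) ∧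
    (n ≤ 3 → HodgeIsometry r t ∧ ∀ m, HodgeIso r t m) ∧
    (n = 4 → HodgeIsometry r t ∧ (∀ m, Even m → HodgeIso r t m) ∧
      (HodgeIso r t 1 → ∀ m, HodgeIso r t m)) ∧
    (n = 5 → HodgeIso r t 3 ∧ HodgeIso r t 7 ∧
      (HodgeIso r t 1 → HodgeIsometry r t ∧ ∀ m, Odd m → HodgeIso r t m)) ∧
    (n = 6 → HodgeIso r t 4 ∧ HodgeIso r t 8) := by
  obtain ⟨A, hA⟩ := exists_actX r
  obtain ⟨B, hB⟩ := exists_actY r t Φ h1 h2
  have hΦ : ∀ a x, Φ.φ (A.ρ a x) = B.ρ a (Φ.φ x) := by
    intro a x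
    rw [hA, hB, rhoY_apply, LinearEquiv.symm_apply_apply]
  have hmid : HodgeIso r t n → HodgeIsometry r t := middle r t Φ h1 h2 A hA B hB hΦ
  obtain ⟨c0, c1, c2, c3, c4, c5, c6⟩ := HStr.main n X Y r t Φ h1 h2
  refine ⟨untwisted r t Φ h1 h2 A hA B hB hΦ, c0, c1, ⟨hmid, ?_⟩, c2, ?_, ?_, ?_, c6⟩
  · rintro ⟨u, v, hu, hv, h3, h4, _⟩
    exact ⟨u, v, hu, hv, h3, h4⟩
  · exact fun hn => ⟨hmid (c3 hn n), c3 hn⟩
  · intro hn
    exact ⟨hmid ((c4 hn).1 n (by rw [hn]; decide)), c4 hn⟩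
  · intro hn
    obtain ⟨d1, d2, d3⟩ := c5 hn
    exact ⟨d1, d2, fun h => ⟨hmid (d3 h n (by rw [hn]; decide)), d3 h⟩⟩

end Pool.Agent.Results.MP_5c0b30_ag.HodgeIsometries
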