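import Pool.Agent.R929.OE.Chow

/-!
# Orlov's conjecture for equivalences which commute with a nef class of defect at most four

Let `X`, `Y` be smooth projective complex varieties of arbitrary dimension `n` with `D(X) ≃ D(Y)`.
The data are those of `FourfoldsOfAbelianType` and `NefClassOfDefectTwo`:

* `Twisted n` (starting library): the cohomology with complex coefficients, its Hodge decomposition,
  the form `∫ x ∪ conj y`, the Lefschetz operator with the hard Lefschetz theorem and the
  Hodge–Riemann relations, and the product with `c₁`.
* `Corr X Y`: the algebra `CH^*(Z × Z) ⊗ ℚ` of correspondences of `Z = X ⊔ Y` and its action on the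
  cohomology; `Equivalence D`: the Mukai vectors of the kernels of the equivalence and its inverse.
* `Kunneth`, `Nilpotence`, `Semisimple`: theorems of Lieberman, Kimura and Jannsen if the Chow motives
  of `X` and `Y` are of abelian type (summands of motives of products of curves).

`DefectFour X L`: the properties (de Cataldo and Migliorini) of the pull-back `L` of an ample class by a
morphism whose defect of semismallness is at most four (fibres of dimension at most four), see
`MP_b4fe5e_ag.DefectFour`.  `SameKernels`: for `p + q + k + 2 = n` there are correspondences of degree
zero which induce inverse isomorphisms of the spaces of classes `x` of type `(p, q)` with `L ^ k x = 0`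
on `X` and on `Y`.

* For defect at most two these spaces are zero (`NefClassOfDefectTwo`).
* If `f : X → B`, `g : Y → B` have connected fibres, all of dimension three, these spaces are the
  primitive intersection cohomology of `B`, and the correspondence is a multiple of the fibre
  product `X ×_B Y` cut with three ample divisors of `X`, in both directions.  So the Chow motives of
  `X` and `Y` are isomorphic for all equivalences linear over `B` in relative dimension three, and
  for all equivalences if `± K` is semiample with equidimensional canonical fibration of relative
  dimension at most three, if the motives are of abelian type.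
* For `n = 4`, `L = 0` these spaces are `H^0` and `H^1`, and the theorem is
  `FourfoldsOfAbelianType`.

The theorem: the Chow motives of `X` and `Y` are isomorphic (`MotivesIsomorphic`) if the equivalence
commutes with `L`, `L'` (first part), or if `L = s c₁`, `L' = s c₁` (second part, where the
compatibility holds automatically).

The proof: for every central idempotent `e` of the algebra of correspondences modulo homological
equivalence the spaces `e H^*(X)`, `e H^*(Y)` carry nondegenerate forms with all these properties
(`R929.OE.sub_defect`), so the theorem on Hodge numbers (`R929.OE.main`, `MP_b4fe5e_ag.DefectFour`)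
gives the dimensions of all `e H^{p,q}` and so the multiplicities of the simple motives in `h^i(X)`.
-/

namespace Pool.Agent.Results.MP_5c0b30_ag.NefClassOfDefectFour

open Pool.Agent.TH125.Tw Pool.Agent.R929.OC Pool.Agent.R929.OE Pool.Agent.R929.OD

/-- **Theorem.** -/
theorem result {n : ℕ} (X Y : Twisted n) (D : Corr X Y) (hK : Kunneth D) (hN : Nilpotence D)
    (hS : Semisimple D) (Ψ : Equivalence D) :
    (∀ (L : Module.End ℂ X.H) (L' : Module.End ℂ Y.H) (c : D.C), DefectFour X L →
      DefectFour Y L' → (∀ z, D.on c z = (L z.1, L' z.2)) → Intertwines Ψ.Φ L L' →
      SameKernels D L L' → MotivesIsomorphic D) ∧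
    (∀ s : ℤ, DefectFour X (s • X.chern) → DefectFour Y (s • Y.chern) →
      SameKernels D (s • X.chern) (s • Y.chern) → MotivesIsomorphic D) :=
  ⟨fun _ _ _ hX hY hc hΨ hk => Pool.Agent.R929.OE.chow hK hN hS Ψ hX hY hc hΨ hk,
    fun _ hX hY hk => Pool.Agent.R929.OE.canonical hK hN hS Ψ hX hY hk⟩

end Pool.Agent.Results.MP_5c0b30_ag.NefClassOfDefectFour
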