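import Pool.Agent.R929.OD.Canon

/-!
# Orlov's conjecture for equivalences which commute with a nef class of defect at most two

Let `X`, `Y` be smooth projective complex varieties of arbitrary dimension `n` with `D(X) ≃ D(Y)`.
The data are those of `FourfoldsOfAbelianType`:

* `Twisted n` (starting library): the cohomology with complex coefficients, its Hodge decomposition,
  the form `∫ x ∪ conj y`, the Lefschetz operator with the hard Lefschetz theorem and the
  Hodge–Riemann relations, and the product with `c₁`.
* `Corr X Y`: the algebra `CH^*(Z × Z) ⊗ ℚ` of correspondences of `Z = X ⊔ Y` and its action on the
  cohomology; `Equivalence D`: the Mukai vectors of the kernels of the equivalence and its inverse.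
* `Kunneth`, `Nilpotence`, `Semisimple`: theorems of Lieberman, Kimura and Jannsen if the Chow motives
  of `X` and `Y` are of abelian type (summands of motives of products of curves).

First part: let `L`, `L'` be the products with nef classes on `X` and `Y`, which are algebraic (given
by a correspondence `c`), such that the equivalence commutes with them (`Intertwines`), and which are
pull-backs of ample classes by morphisms `f : X → B`, `g : Y → B'` whose defect of semismallness
`max (2 k + dim B_k - n)` (`B_k` the set of points with `k`-dimensional fibres) is at most two: for
instance equivalences which are linear over `B = B'`, such as relative Fourier–Mukai transforms of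
fibrations with all fibres of dimension at most two (fibrations in K3 or abelian surfaces, ...), of
arbitrary Kodaira dimension, for every `n`.

Second part: all equivalences, if the canonical classes are semiample (or anti-semiample) and the
pluricanonical morphisms have defect at most two; here `L = s c₁`, and an equivalence always commutes
with the first Chern classes (`R929.OD.intertwines_chern`, by the Serre functors).

The conditions `DefectTwo` are then theorems of de Cataldo and Migliorini (hard Lefschetz theorem for
perverse cohomology groups, generalised Hodge–Riemann relations).  The theorem: the Chow motives of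
`X` and `Y` are isomorphic (`MotivesIsomorphic`).

The proof: for every central idempotent `e` of the algebra of correspondences modulo homological
equivalence the spaces `e H^*(X)`, `e H^*(Y)` carry nondegenerate forms with all these properties
(`R929.OD.sub_defect`), and the negative index of the form `∫ L ^ k x ∪ conj y` on `e H^{p,q}`,
`p + q + k = n`, is computed from the dimensions of the spaces `e H^{p-j,q-j}` (`R929.OD.neg_dim`; this is
`MP_b4fe5e_ag.SmallDefect` for graded modules in place of rings); the inertia of the whole form is
preserved by the equivalence, which determines the dimensions of all `e H^{p,q}` and so the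
multiplicities of the simple motives in `h^i(X)`.
-/

namespace Pool.Agent.Results.MP_5c0b30_ag.NefClassOfDefectTwo

open Pool.Agent.TH125.Tw Pool.Agent.R929.OC Pool.Agent.R929.OD

/-- **Theorem.** -/
theorem result {n : ℕ} (X Y : Twisted n) (D : Corr X Y) (hK : Kunneth D) (hN : Nilpotence D)
    (hS : Semisimple D) (Ψ : Equivalence D) :
    (∀ (L : Module.End ℂ X.H) (L' : Module.End ℂ Y.H) (c : D.C), DefectTwo X L → DefectTwo Y L' →
      (∀ z, D.on c z = (L z.1, L' z.2)) → Intertwines Ψ.Φ L L' → MotivesIsomorphic D) ∧
    (∀ s : ℤ, DefectTwo X (s • X.chern) → DefectTwo Y (s • Y.chern) → MotivesIsomorphic D) :=
  ⟨fun _ _ _ hX hY hc hΨ => chow hK hN hS Ψ hX hY hc hΨ,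
    fun _ hX hY => canonical hK hN hS Ψ hX hY⟩

end Pool.Agent.Results.MP_5c0b30_ag.NefClassOfDefectTwo
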